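import Mathlib

open Polynomial

namespace Pool.Agent.Results.MP_93e32b_nt.Cubic

lemma descent {m : ℤ} (hm : m % 4 = 3) : ∀ (n : ℕ) (x y z : ℤ), z.natAbs = n →
    x ^ 2 + y ^ 2 = m * z ^ 2 → z = 0 := by
  intro n
  induction n using Nat.strong_induction_on with
  | _ n ih =>
    intro x y z hz h
    obtain ⟨k, rfl⟩ : ∃ k, m = 4 * k + 3 := ⟨m / 4, by omega⟩
    obtain ⟨a, rfl | rfl⟩ := Int.even_or_odd' x <;> obtain ⟨b, rfl | rfl⟩ := Int.even_or_odd' y <;>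
      obtain ⟨c, rfl | rfl⟩ := Int.even_or_odd' z
    · by_contra h0
      exact h0 (by rw [ih c.natAbs (by omega) a b c rfl (by linarith)]; rfl)
    all_goals
      exfalso
      ring_nf at h
      omega

lemma not_sq {m : ℤ} (hm : m % 4 = 3) (x y : ℚ) : x ^ 2 + y ^ 2 ≠ m := by
  intro h
  have := descent hm _ (x.num * y.den) (y.num * x.den) (x.den * y.den) rfl (by
    have hx := x.mul_den_eq_num
    have hy := y.mul_den_eq_num
    qify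
    rw [← hx, ← hy, ← h]; ring)
  have h1 := x.den_nz
  have h2 := y.den_nz
  simp_all

lemma no_root (s : ℚ) : s ^ 3 + 3 ≠ 0 := by
  intro h
  have h1 : (s.num : ℚ) ^ 3 + 3 * s.den ^ 3 = 0 := by
    rw [← s.mul_den_eq_num]; linear_combination (s.den : ℚ) ^ 3 * h
  have h2 : s.num ^ 3 + 3 * (s.den : ℤ) ^ 3 = 0 := by exact_mod_cast h1
  obtain ⟨a, ha⟩ : (3 : ℤ) ∣ s.num :=
    Int.prime_three.dvd_of_dvd_pow (n := 3) ⟨-s.den ^ 3, by linarith⟩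
  have h3 : (3 : ℤ) ∣ s.den :=
    Int.prime_three.dvd_of_dvd_pow (n := 3) ⟨-3 * a ^ 3, by rw [ha] at h2; linarith⟩
  have := Int.prime_three.not_isUnit (s.isCoprime_num_den.isUnit_of_dvd' ⟨a, ha⟩ h3)
  exact this

lemma key {s H x y : ℚ} {c : ℤ} (h1 : H ^ 2 + 9 * s ^ 4 = 4 * (s ^ 3 + 3) * (c + 2 * s))
    (h2 : x ^ 2 + y ^ 2 = s ^ 3 + 3) : False := by
  have hs := s.mul_den_eq_num
  have hc := s.isCoprime_num_den
  generalize s.num = p at *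
  generalize hq : (s.den : ℤ) = q at *
  have hq' : (s.den : ℚ) = q := by rw [← hq]; rfl
  rw [hq'] at hs
  obtain ⟨a, rfl | rfl⟩ := Int.even_or_odd' p
  · obtain ⟨b, rfl | rfl⟩ := Int.even_or_odd' q
    · exact Int.prime_two.not_isUnit (hc.isUnit_of_dvd' ⟨a, rfl⟩ ⟨b, rfl⟩)
    · refine not_sq (m := (2 * b + 1) * ((2 * a) ^ 3 + 3 * (2 * b + 1) ^ 3)) (by ring_nf; omega)
        (x * (2 * b + 1) ^ 2) (y * (2 * b + 1) ^ 2) ?_
      push_cast at hs ⊢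
      rw [← hs]; linear_combination (2 * b + 1 : ℚ) ^ 4 * h2
  · refine not_sq (m := 4 * (((2 * a + 1) ^ 3 + 3 * q ^ 3) * (c * q + 2 * (2 * a + 1))) -
      9 * (2 * a + 1) ^ 4) ?_ (H * q ^ 2) 0 ?_
    · generalize ((2 * a + 1) ^ 3 + 3 * q ^ 3) * (c * q + 2 * (2 * a + 1)) = w
      ring_nf; omega
    · push_cast at hs ⊢
      rw [← hs]; linear_combination (q : ℚ) ^ 4 * h1

lemma rot {a b : ℚ} (h : a ^ 2 + b ^ 2 ≠ 0) (x y : ℚ) :
    ∃ u v, x = u * a - v * b ∧ y = u * b + v * a :=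
  ⟨(x * a + y * b) / (a ^ 2 + b ^ 2), (y * a - x * b) / (a ^ 2 + b ^ 2), by field_simp; ring,
    by field_simp; ring⟩

lemma core {A h k a₀ a₁ a₂ a b₀ b₁ b₂ b : ℚ} {c : ℤ} (hA : A ≠ 0) (hc : A * h ^ 2 + k = c)
    (H : ∀ t : ℚ, (A * t ^ 2 + k) ^ 3 + 3 = (a * t ^ 3 + a₂ * t ^ 2 + a₁ * t + a₀) ^ 2 +
      (b * t ^ 3 + b₂ * t ^ 2 + b₁ * t + b₀) ^ 2) : False := by
  have e6 : a ^ 2 + b ^ 2 = A ^ 3 := by
    linear_combination (-H 3 + 6 * H 2 - 15 * H 1 + 20 * H 0 - 15 * H (-1) + 6 * H (-2) - H (-3)) / 720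
  have hN : a ^ 2 + b ^ 2 ≠ 0 := by rw [e6]; exact pow_ne_zero _ hA
  obtain ⟨ν, μ, rfl, rfl⟩ := rot hN a₂ b₂
  obtain ⟨α, β, rfl, rfl⟩ := rot hN a₁ b₁
  obtain ⟨γ, δ, rfl, rfl⟩ := rot hN a₀ b₀
  have G : ∀ t : ℚ, (A * t ^ 2 + k) ^ 3 + 3 =
      A ^ 3 * ((t ^ 3 + ν * t ^ 2 + α * t + γ) ^ 2 + (μ * t ^ 2 + β * t + δ) ^ 2) := by
    intro t; rw [H t, ← e6]; ring
  have hA3 : A ^ 3 ≠ 0 := pow_ne_zero _ hA
  obtain rfl : ν = 0 := mul_left_cancel₀ hA3 (by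
    linear_combination (-G 3 + 4 * G 2 - 5 * G 1 + 5 * G (-1) - 4 * G (-2) + G (-3)) / 480)
  obtain rfl : γ = -(μ * β) := mul_left_cancel₀ hA3 (by
    linear_combination (-G 2 + 2 * G 1 - 2 * G (-1) + G (-2)) / 24)
  have e1 : β * (δ - μ * α) = 0 := mul_left_cancel₀ hA3 (by
    linear_combination (G 2 - 8 * G 1 + 8 * G (-1) - G (-2)) / 24)
  have e0 := G 0
  have e4 : 3 * A ^ 2 * k = A ^ 3 * (μ ^ 2 + 2 * α) := by
    linear_combination (G 2 - 4 * G 1 + 6 * G 0 - 4 * G (-1) + G (-2)) / 24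
  have e2 : 3 * A * k ^ 2 = A ^ 3 * (α ^ 2 + β ^ 2 + 2 * μ * δ) := by
    linear_combination (-G 2 + 16 * G 1 - 30 * G 0 + 16 * G (-1) - G (-2)) / 24
  have e4' : 3 * k = A * (μ ^ 2 + 2 * α) :=
    mul_left_cancel₀ (pow_ne_zero 2 hA) (by linear_combination e4)
  have e2' : 3 * k ^ 2 = A ^ 2 * (α ^ 2 + β ^ 2 + 2 * μ * δ) :=
    mul_left_cancel₀ hA (by linear_combination e2)
  rcases mul_eq_zero.1 e1 with rfl | e
  · have f1 : (k - A * α) ^ 3 + 3 = A ^ 3 * (δ - μ * α) ^ 2 := by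
      linear_combination e0 - A * α * e2' + A ^ 2 * α ^ 2 * e4'
    have f2 : 3 * (k - A * α) ^ 2 = 2 * A ^ 2 * μ * (δ - μ * α) := by
      linear_combination e2' - 2 * A * α * e4'
    refine key (s := k - A * α) (H := 2 * A ^ 2 * h * (δ - μ * α)) (c := c)
      (x := a * (δ - μ * α)) (y := b * (δ - μ * α)) ?_ ?_
    · rw [f1, ← hc]
      linear_combination (3 * (k - A * α) ^ 2 + 2 * A ^ 2 * μ * (δ - μ * α)) * f2 -
        4 * A ^ 3 * (δ - μ * α) ^ 2 * e4'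
    · rw [f1, ← e6]; ring
  · obtain rfl : δ = μ * α := by linarith
    exact no_root (k - A * μ ^ 2) (by
      linear_combination e0 - A * μ ^ 2 * e2' + A ^ 2 * μ ^ 4 * e4')

lemma deg {q₁ q₂ : ℚ[X]} (h : (q₁ ^ 2 + q₂ ^ 2).natDegree ≤ 6) (h12 : q₂.natDegree ≤ q₁.natDegree) :
    q₁.natDegree ≤ 3 := by
  by_contra h3
  have h0 : q₁.coeff q₁.natDegree ≠ 0 := by
    intro h0
    rw [coeff_natDegree, leadingCoeff_eq_zero] at h0
    simp [h0] at h3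
  have := coeff_eq_zero_of_natDegree_lt (p := q₁ ^ 2 + q₂ ^ 2) (n := 2 * q₁.natDegree) (by omega)
  rw [coeff_add, coeff_pow_of_natDegree_le le_rfl, coeff_pow_of_natDegree_le h12] at this
  exact absurd this (by positivity)

lemma shift {q : ℚ[X]} (hq : q.natDegree ≤ 3) (h : ℚ) :
    ∃ a a₂ a₁ a₀ : ℚ, ∀ t, q.eval (t + h) = a * t ^ 3 + a₂ * t ^ 2 + a₁ * t + a₀ := by
  refine ⟨q.coeff 3, q.coeff 2 + 3 * q.coeff 3 * h,
    q.coeff 1 + 2 * q.coeff 2 * h + 3 * q.coeff 3 * h ^ 2,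
    q.coeff 0 + q.coeff 1 * h + q.coeff 2 * h ^ 2 + q.coeff 3 * h ^ 3, fun t => ?_⟩
  rw [eval_eq_sum_range' (n := 4) (by omega)]
  simp only [Finset.sum_range_succ, Finset.sum_range_zero]
  ring

theorem result : ¬ ∀ p : ℤ[X], p.Monic → p.natDegree = 3 → Irreducible p →
    ∃ q₀ q₁ q₂ : ℚ[X], q₀.natDegree = 2 ∧ (∀ n : ℤ, ∃ m : ℤ, q₀.eval (n : ℚ) = m) ∧
      (p.map (Int.castRingHom ℚ)).comp q₀ = q₁ ^ 2 + q₂ ^ 2 := by
  intro H
  have hm : (X ^ 3 + C 3 : ℤ[X]).Monic := monic_X_pow_add_C _ (by norm_num)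
  have hd : (X ^ 3 + C 3 : ℤ[X]).natDegree = 3 := natDegree_X_pow_add_C
  obtain ⟨q₀, q₁, q₂, h0, hi, h⟩ := H _ hm hd (by
    rw [hm.irreducible_iff_roots_eq_zero_of_degree_le_three (by omega) (by omega),
      Multiset.eq_zero_iff_forall_notMem]
    intro a ha
    rw [mem_roots hm.ne_zero, IsRoot.def, eval_add, eval_pow, eval_X, eval_C] at ha
    exact no_root a (by exact_mod_cast ha))
  have h' : q₀ ^ 3 + C 3 = q₁ ^ 2 + q₂ ^ 2 := by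
    rw [← h, Polynomial.map_add, Polynomial.map_pow, map_X, map_C, add_comp, pow_comp, X_comp,
      C_comp]
    rfl
  have h6 : (q₁ ^ 2 + q₂ ^ 2).natDegree ≤ 6 := by
    rw [← h', natDegree_add_C, natDegree_pow, h0]
  have d : q₁.natDegree ≤ 3 ∧ q₂.natDegree ≤ 3 := by
    rcases le_total q₂.natDegree q₁.natDegree with e | e
    · exact ⟨deg h6 e, e.trans (deg h6 e)⟩
    · rw [add_comm] at h6; exact ⟨e.trans (deg h6 e), deg h6 e⟩
  have hA : q₀.coeff 2 ≠ 0 := by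
    rw [← h0, coeff_natDegree, leadingCoeff_ne_zero]
    rintro rfl
    simp at h0
  have ev : ∀ x, q₀.eval x = q₀.coeff 2 * x ^ 2 + q₀.coeff 1 * x + q₀.coeff 0 := by
    intro x
    rw [eval_eq_sum_range' (n := 3) (by omega)]
    simp only [Finset.sum_range_succ, Finset.sum_range_zero]
    ring
  obtain ⟨c, hc⟩ := hi 0
  generalize q₀.coeff 2 = A at *
  generalize q₀.coeff 1 = B at *
  obtain ⟨a, a₂, a₁, a₀, ha⟩ := shift d.1 (-B / (2 * A))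
  obtain ⟨b, b₂, b₁, b₀, hb⟩ := shift d.2 (-B / (2 * A))
  refine core (h := B / (2 * A)) (k := q₀.coeff 0 - B ^ 2 / (4 * A)) (c := c) hA ?_
    (a := a) (a₂ := a₂) (a₁ := a₁) (a₀ := a₀) (b := b) (b₂ := b₂) (b₁ := b₁) (b₀ := b₀) fun t => ?_
  · rw [← hc, ev]; field_simp; ring
  · have := congrArg (eval (t + -B / (2 * A))) h'
    rw [eval_add, eval_add, eval_pow, eval_pow, eval_pow, ha, hb, eval_C, ev] at this
    rw [← this]; field_simp; ring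

end Pool.Agent.Results.MP_93e32b_nt.Cubic
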